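import Mathlib

/-!
# Permutations with distinct sums: monotonicity in `n`

`N(n,k)` is the least number, over `a ∈ (ℤ/n)^k`, of permutations `π` for which the sums
`a_{π(i)} + i` are pairwise distinct. We compare with the same problem for integers: if
`n > k (k - 1)` there is a residue `s` which is not of the form `a_x + j`, `1 ≤ j ≤ k - 1`. So
`a_x - s` is represented by an integer `b_x` with `0 ≤ b_x ≤ n - k`, and the sums `b_x + i` are
smaller than `n`: they are distinct modulo `n` if and only if they are distinct as integers. On the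
other hand sums which are distinct modulo any `m` are distinct as integers.
-/

set_option autoImplicit false

namespace Pool.Agent.Results.MP_31c4fb_co.ManyResidues

/-- The number of permutations `π` of `{0, …, k-1}` such that the `a (π i) + i` are pairwise distinct
modulo `n`. -/
noncomputable def Phi (n k : ℕ) (a : Fin k → ZMod n) : ℕ :=
  {π : Equiv.Perm (Fin k) |
    Function.Injective (fun i : Fin k => a (π i) + (((i : ℕ)) : ZMod n))}.ncard

/-- The least value of `Phi n k a`. -/
noncomputable def N (n k : ℕ) : ℕ := ⨅ a : Fin k → ZMod n, Phi n k a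

/-- The number of permutations `π` of `{0, …, k-1}` such that the natural numbers `b (π i) + i` are
pairwise distinct. -/
noncomputable def PhiInt (k : ℕ) (b : Fin k → ℕ) : ℕ :=
  {π : Equiv.Perm (Fin k) | Function.Injective (fun i : Fin k => b (π i) + (i : ℕ))}.ncard

/-- The least value of `PhiInt k b`. -/
noncomputable def NInt (k : ℕ) : ℕ := ⨅ b : Fin k → ℕ, PhiInt k b

theorem Phi_le {n k : ℕ} (b : Fin k → ℕ) : Phi n k (fun x => (b x : ZMod n)) ≤ PhiInt k b := by
  refine Set.ncard_le_ncard (fun π hπ => ?_) (Set.toFinite _)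
  intro i j hij
  apply hπ
  have : ((b (π i) + (i : ℕ) : ℕ) : ZMod n) = ((b (π j) + (j : ℕ) : ℕ) : ZMod n) :=
    congrArg _ hij
  simpa using this

theorem Phi_eq {n k : ℕ} (b : Fin k → ℕ) (hb : ∀ x, b x + k ≤ n) :
    Phi n k (fun x => (b x : ZMod n)) = PhiInt k b := by
  unfold Phi PhiInt
  congr 1
  ext π
  refine ⟨fun hπ i j hij => ?_, fun hπ i j hij => ?_⟩
  · apply hπ
    have : ((b (π i) + (i : ℕ) : ℕ) : ZMod n) = ((b (π j) + (j : ℕ) : ℕ) : ZMod n) :=
      congrArg _ hij
    simpa using this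
  · apply hπ
    have h1 : ((b (π i) + (i : ℕ) : ℕ) : ZMod n) = ((b (π j) + (j : ℕ) : ℕ) : ZMod n) := by
      simpa using hij
    rw [ZMod.natCast_eq_natCast_iff'] at h1
    have hi := hb (π i)
    have hj := hb (π j)
    have hi' := i.2
    have hj' := j.2
    rwa [Nat.mod_eq_of_lt (by omega), Nat.mod_eq_of_lt (by omega)] at h1

theorem Phi_sub {n k : ℕ} (a : Fin k → ZMod n) (s : ZMod n) :
    Phi n k (fun x => a x - s) = Phi n k a := by
  unfold Phi
  congr 1
  ext π
  refine ⟨fun h i j hij => h ?_, fun h i j hij => h ?_⟩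
  · simp only at hij ⊢
    linear_combination hij
  · simp only at hij ⊢
    linear_combination hij

theorem exists_int {n k : ℕ} (hn : k * (k - 1) < n) (a : Fin k → ZMod n) :
    ∃ b : Fin k → ℕ, (∀ x, b x + k ≤ n) ∧ Phi n k a = PhiInt k b := by
  have : NeZero n := ⟨by omega⟩
  let f : Fin k × Fin (k - 1) → ZMod n := fun p => a p.1 + (((p.2 : ℕ) + 1 : ℕ) : ZMod n)
  obtain ⟨s, hs⟩ : ∃ s, s ∉ Set.range f := by
    by_contra hcon
    push Not at hcon
    have h1 : Fintype.card (ZMod n) ≤ Fintype.card (Fin k × Fin (k - 1)) :=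
      Fintype.card_le_of_surjective f hcon
    simp only [ZMod.card, Fintype.card_prod, Fintype.card_fin] at h1
    omega
  have hb : ∀ x, (a x - s).val + k ≤ n := by
    intro x
    by_contra hcon
    push Not at hcon
    have h1 : (a x - s).val < n := ZMod.val_lt _
    apply hs
    refine ⟨(x, ⟨n - (a x - s).val - 1, by omega⟩), ?_⟩
    have h2 : ((((n - (a x - s).val - 1 : ℕ) + 1 : ℕ)) : ZMod n) = s - a x := by
      have h3 : (n - (a x - s).val - 1 : ℕ) + 1 = n - (a x - s).val := by omega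
      rw [h3, Nat.cast_sub h1.le, ZMod.natCast_self, ZMod.natCast_zmod_val]
      ring
    change a x + ((((n - (a x - s).val - 1 : ℕ) + 1 : ℕ)) : ZMod n) = s
    rw [h2]
    ring
  refine ⟨fun x => (a x - s).val, hb, ?_⟩
  rw [← Phi_eq _ hb, ← Phi_sub a s]
  congr 1
  funext x
  exact (ZMod.natCast_zmod_val _).symm

theorem N_le {n k : ℕ} (a : Fin k → ZMod n) : N n k ≤ Phi n k a :=
  ciInf_le (OrderBot.bddBelow _) a

theorem le_N {n k m : ℕ} (h : ∀ a : Fin k → ZMod n, m ≤ Phi n k a) : m ≤ N n k :=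
  le_ciInf h

theorem N_le_NInt (n k : ℕ) : N n k ≤ NInt k :=
  le_ciInf fun b => (N_le _).trans (Phi_le b)

theorem NInt_le {n k : ℕ} (hn : k * (k - 1) < n) : NInt k ≤ N n k := by
  refine le_N fun a => ?_
  obtain ⟨b, -, hb⟩ := exists_int hn a
  rw [hb]
  exact ciInf_le (OrderBot.bddBelow _) b

theorem N_zero_of_lt {n k : ℕ} (hn : 0 < n) (h : n < k) : N n k = 0 := by
  have : NeZero n := ⟨hn.ne'⟩
  refine Nat.le_zero.1 ((N_le (fun _ => 0)).trans ?_)
  rw [Nat.le_zero]
  unfold Phi
  rw [Set.ncard_eq_zero (Set.toFinite _), Set.eq_empty_iff_forall_notMem]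
  intro π hπ
  have := Fintype.card_le_of_injective _ hπ
  simp only [ZMod.card, Fintype.card_fin] at this
  omega

theorem N_self {n : ℕ} (hn : 2 ≤ n) : N n n = 0 := by
  have : NeZero n := ⟨by omega⟩
  have : Fact (1 < n) := ⟨hn⟩
  let z : Fin n := ⟨0, by omega⟩
  refine Nat.le_zero.1 ((N_le (fun x => if x = z then 1 else 0)).trans ?_)
  rw [Nat.le_zero]
  unfold Phi
  rw [Set.ncard_eq_zero (Set.toFinite _), Set.eq_empty_iff_forall_notMem]
  intro π hπ
  have hcard : Fintype.card (Fin n) = Fintype.card (ZMod n) := by simp [ZMod.card]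
  have hbij := (Fintype.bijective_iff_injective_and_card _).2 ⟨hπ, hcard⟩
  have h0 : Function.Injective (fun i : Fin n => ((i : ℕ) : ZMod n)) := by
    intro i j hij
    have h1 := (ZMod.natCast_eq_natCast_iff' _ _ _).1 hij
    rw [Nat.mod_eq_of_lt i.2, Nat.mod_eq_of_lt j.2] at h1
    exact Fin.ext h1
  have hbij0 := (Fintype.bijective_iff_injective_and_card _).2 ⟨h0, hcard⟩
  have e1 := hbij.sum_comp (fun y : ZMod n => y)
  have e2 := hbij0.sum_comp (fun y : ZMod n => y)
  rw [← e2, Finset.sum_add_distrib] at e1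
  have e3 : ∑ i : Fin n, (if π i = z then (1 : ZMod n) else 0) = 0 := by
    simpa using e1
  rw [Equiv.sum_comp π (fun x => if x = z then (1 : ZMod n) else 0)] at e3
  simp at e3

/-- `N(n,k) ≤ N(n+1,k)` for `n ≥ k(k-1)` and for `n ≤ k`. -/
theorem main (n k : ℕ) (hn : 0 < n) (h : k * (k - 1) ≤ n ∨ n ≤ k) : N n k ≤ N (n + 1) k := by
  have h1 : k * (k - 1) ≤ n → N n k ≤ N (n + 1) k := fun h =>
    (N_le_NInt n k).trans (NInt_le (by omega))
  rcases h with h | h
  · exact h1 h
  · rcases Nat.lt_or_ge n k with h2 | h2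
    · rw [N_zero_of_lt hn h2]
      exact Nat.zero_le _
    · obtain rfl : n = k := le_antisymm h h2
      rcases Nat.lt_or_ge n 2 with h3 | h3
      · have : n = 1 := by omega
        subst this
        exact h1 (by norm_num)
      · rw [N_self h3]
        exact Nat.zero_le _

theorem Phi_card {n k : ℕ} [NeZero n] (a : Fin k → ZMod n) :
    Phi n k a = (Finset.univ.filter (fun π : Equiv.Perm (Fin k) =>
      Function.Injective (fun i : Fin k => a (π i) + ((i : ℕ) : ZMod n)))).card := by
  rw [Phi, Set.ncard_eq_toFinset_card']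
  congr 1
  ext π
  simp

theorem two_le_five : ∀ b c : ZMod 5, 2 ≤ (Finset.univ.filter (fun π : Equiv.Perm (Fin 3) =>
    Function.Injective (fun i : Fin 3 =>
      (![0, b, c] : Fin 3 → ZMod 5) (π i) + ((i : ℕ) : ZMod 5)))).card := by
  decide +kernel

theorem two_le_six : ∀ b c : ZMod 6, 2 ≤ (Finset.univ.filter (fun π : Equiv.Perm (Fin 3) =>
    Function.Injective (fun i : Fin 3 =>
      (![0, b, c] : Fin 3 → ZMod 6) (π i) + ((i : ℕ) : ZMod 6)))).card := by
  decide +kernel

theorem vec_eq {n : ℕ} (a : Fin 3 → ZMod n) :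
    (fun x => a x - a 0) = ![0, a 1 - a 0, a 2 - a 0] := by
  funext x
  fin_cases x <;> simp

theorem two_le_N_five : 2 ≤ N 5 3 := by
  refine le_N fun a => ?_
  rw [← Phi_sub a (a 0), vec_eq, Phi_card]
  exact two_le_five _ _

theorem two_le_N_six : 2 ≤ N 6 3 := by
  refine le_N fun a => ?_
  rw [← Phi_sub a (a 0), vec_eq, Phi_card]
  exact two_le_six _ _

theorem NInt_three_le : NInt 3 ≤ 2 := by
  refine (ciInf_le (OrderBot.bddBelow _) (![0, 0, 1] : Fin 3 → ℕ)).trans ?_
  rw [PhiInt, Set.ncard_eq_toFinset_card']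
  decide +kernel

/-- `N(n,k) ≤ N(n+1,k)` if `n ≥ k (k-1)`, or `n ≤ k`, or `k ≤ 3`; for `n > k (k-1)` the number
`N(n,k)` is equal to the least number `NInt k` for integer vectors, and it is at most this number
for all `n`. -/
theorem result :
    (∀ n k : ℕ, 0 < n → (k * (k - 1) ≤ n ∨ n ≤ k ∨ k ≤ 3) → N n k ≤ N (n + 1) k) ∧
    (∀ n k : ℕ, k * (k - 1) < n → N n k = NInt k) ∧
    ∀ n k : ℕ, N n k ≤ NInt k := by
  refine ⟨fun n k hn h => ?_, fun n k hn => le_antisymm (N_le_NInt n k) (NInt_le hn), N_le_NInt⟩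
  rcases h with h | h | h
  · exact main n k hn (Or.inl h)
  · exact main n k hn (Or.inr h)
  · by_cases h1 : k * (k - 1) ≤ n ∨ n ≤ k
    · exact main n k hn h1
    · push Not at h1
      obtain ⟨h1, h2⟩ := h1
      have hk : k = 3 := by
        interval_cases k <;> omega
      subst hk
      have hn' : n = 4 ∨ n = 5 := by omega
      rcases hn' with rfl | rfl
      · exact (N_le_NInt 4 3).trans (NInt_three_le.trans two_le_N_five)
      · exact (N_le_NInt 5 3).trans (NInt_three_le.trans two_le_N_six)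

end Pool.Agent.Results.MP_31c4fb_co.ManyResidues
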